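import Mathlib
import Pool.Agent.Lib.MP_75c8a4_co.Defs

/-!
# Counting triples with a given circumradius in a set in general position
-/

open Finset

namespace Pool.Agent.Lib.MP_75c8a4_co

open Classical in
/-- Triples of `X` with circumradius `r`. -/
noncomputable def triples (X : Finset Plane) (r : ℝ) : Finset (Finset Plane) :=
  (X.powersetCard 3).filter (fun T => IsCircumradius T r)

lemma mem_triples {X : Finset Plane} {r : ℝ} {T : Finset Plane} :
    T ∈ triples X r ↔ T ⊆ X ∧ T.card = 3 ∧ IsCircumradius T r := by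
  classical
  unfold triples
  rw [mem_filter, mem_powersetCard, and_assoc]

/-- Two different triples of `X` have different circles. -/
lemma center_ne_of_ne {X : Finset Plane} (hX : GeneralPosition X) {T T' : Finset Plane}
    (hT : T ⊆ X) (hT' : T' ⊆ X) (hT3 : T.card = 3) (hT3' : T'.card = 3) (hne : T ≠ T')
    {c : Plane} {r : ℝ} (h : ∀ x ∈ T, dist x c = r) (h' : ∀ x ∈ T', dist x c = r) : False := by
  classical
  have hU : 4 ≤ (T ∪ T').card := by
    by_contra hcon
    push Not at hcon
    have h1 : (T ∪ T').card = 3 := by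
      have := card_le_card (subset_union_left : T ⊆ T ∪ T')
      omega
    have h2 : T = T ∪ T' := eq_of_subset_of_card_le subset_union_left (by omega)
    have h3 : T' = T ∪ T' := eq_of_subset_of_card_le subset_union_right (by omega)
    exact hne (h2.trans h3.symm)
  obtain ⟨Q, hQ, hQ4⟩ := exists_subset_card_eq hU
  refine hX.2 Q (hQ.trans (union_subset hT hT')) hQ4 ⟨c, r, ?_⟩
  intro p hp
  have := hQ (mem_coe.mp hp)
  rw [mem_union] at this
  rcases this with h1 | h1
  · exact h p h1
  · exact h' p h1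

/-- Two points lie in at most two triples of a given circumradius. -/
lemma card_triples_pair_le {X : Finset Plane} (hX : GeneralPosition X) (r : ℝ) {a b : Plane}
    (hab : a ≠ b) : ((triples X r).filter (fun T => a ∈ T ∧ b ∈ T)).card ≤ 2 := by
  classical
  by_contra hcon
  push Not at hcon
  rw [two_lt_card] at hcon
  obtain ⟨T₁, h₁, T₂, h₂, T₃, h₃, h12, h13, h23⟩ := hcon
  simp only [mem_filter, mem_triples] at h₁ h₂ h₃
  obtain ⟨⟨hX1, hc1, c₁, hr1⟩, ha1, hb1⟩ := h₁
  obtain ⟨⟨hX2, hc2, c₂, hr2⟩, ha2, hb2⟩ := h₂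
  obtain ⟨⟨hX3, hc3, c₃, hr3⟩, ha3, hb3⟩ := h₃
  have e12 : c₁ ≠ c₂ := by
    rintro rfl; exact center_ne_of_ne hX hX1 hX2 hc1 hc2 h12 hr1 hr2
  have e13 : c₁ ≠ c₃ := by
    rintro rfl; exact center_ne_of_ne hX hX1 hX3 hc1 hc3 h13 hr1 hr3
  have e23 : c₂ ≠ c₃ := by
    rintro rfl; exact center_ne_of_ne hX hX2 hX3 hc2 hc3 h23 hr2 hr3
  have := EuclideanGeometry.eq_of_dist_eq_of_dist_eq_of_finrank_eq_two finrank_plane
    (c₁ := a) (c₂ := b) (p₁ := c₁) (p₂ := c₂) (p := c₃) (r₁ := r) (r₂ := r) hab e12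
    (by rw [dist_comm]; exact hr1 a ha1) (by rw [dist_comm]; exact hr2 a ha2)
    (by rw [dist_comm]; exact hr3 a ha3) (by rw [dist_comm]; exact hr1 b hb1)
    (by rw [dist_comm]; exact hr2 b hb2) (by rw [dist_comm]; exact hr3 b hb3)
  rcases this with h | h
  · exact e13 h.symm
  · exact e23 h.symm

/-- A point lies in at most `n` triples of a given circumradius. -/
lemma card_triples_point_le {X : Finset Plane} (hX : GeneralPosition X) (r : ℝ) (a : Plane)
    (ha : a ∈ X) : ((triples X r).filter (fun T => a ∈ T)).card ≤ X.card := by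
  classical
  set F := (triples X r).filter (fun T => a ∈ T) with hF
  have h1 : ∑ b ∈ X.erase a, (F.filter (fun T => b ∈ T)).card = 2 * F.card := by
    have h2 : ∑ b ∈ X.erase a, (F.filter (fun T => b ∈ T)).card =
        ∑ T ∈ F, ((X.erase a).filter (fun b => b ∈ T)).card := by
      simp_rw [card_filter]
      rw [sum_comm]
    rw [h2]
    have h3 : ∀ T ∈ F, ((X.erase a).filter (fun b => b ∈ T)).card = 2 := by
      intro T hT
      rw [hF, mem_filter, mem_triples] at hT
      obtain ⟨⟨hTX, hT3, _⟩, haT⟩ := hT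
      have h4 : (X.erase a).filter (fun b => b ∈ T) = T.erase a := by
        ext b
        simp only [mem_filter, mem_erase]
        constructor
        · rintro ⟨⟨h5, _⟩, h6⟩; exact ⟨h5, h6⟩
        · rintro ⟨h5, h6⟩; exact ⟨⟨h5, hTX h6⟩, h6⟩
      rw [h4, card_erase_of_mem haT, hT3]
    rw [sum_congr rfl h3, sum_const, smul_eq_mul, mul_comm]
  have h2 : ∑ b ∈ X.erase a, (F.filter (fun T => b ∈ T)).card ≤ ∑ b ∈ X.erase a, 2 := by
    apply sum_le_sum
    intro b hb
    have hab : a ≠ b := by
      rintro rfl; exact notMem_erase a X hb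
    have := card_triples_pair_le hX r hab
    rw [hF, filter_filter]
    exact this
  rw [h1, sum_const, smul_eq_mul, card_erase_of_mem ha] at h2
  omega

/-- At most `n² / 3` triples have a given circumradius. -/
lemma card_triples_le {X : Finset Plane} (hX : GeneralPosition X) (r : ℝ) :
    3 * (triples X r).card ≤ X.card ^ 2 := by
  classical
  have h1 : ∑ a ∈ X, ((triples X r).filter (fun T => a ∈ T)).card = 3 * (triples X r).card := by
    have h2 : ∑ a ∈ X, ((triples X r).filter (fun T => a ∈ T)).card =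
        ∑ T ∈ triples X r, (X.filter (fun b => b ∈ T)).card := by
      simp_rw [card_filter]
      rw [sum_comm]
    rw [h2]
    have h3 : ∀ T ∈ triples X r, (X.filter (fun b => b ∈ T)).card = 3 := by
      intro T hT
      rw [mem_triples] at hT
      obtain ⟨hTX, hT3, _⟩ := hT
      have h4 : X.filter (fun b => b ∈ T) = T := by
        ext b
        simp only [mem_filter]
        constructor
        · rintro ⟨_, h6⟩; exact h6
        · intro h6; exact ⟨hTX h6, h6⟩
      rw [h4, hT3]
    rw [sum_congr rfl h3, sum_const, smul_eq_mul, mul_comm]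
  have h2 : ∑ a ∈ X, ((triples X r).filter (fun T => a ∈ T)).card ≤ ∑ a ∈ X, X.card := by
    apply sum_le_sum
    intro a ha
    exact card_triples_point_le hX r a ha
  rw [h1, sum_const, smul_eq_mul] at h2
  rw [sq]; exact h2

/-- The weighted number of triples in conflict with a given triple. -/
lemma sum_conflict_le {X : Finset Plane} (hX : GeneralPosition X) (r : ℝ) (t : ℝ) (ht : 0 ≤ t)
    {T : Finset Plane} (hT : T ∈ triples X r) :
    ∑ T' ∈ (triples X r).erase T, t ^ (T ∪ T').card ≤
      6 * t ^ 4 + 3 * X.card * t ^ 5 + (X.card : ℝ) ^ 2 / 3 * t ^ 6 := by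
  classical
  have hT' := mem_triples.mp hT
  obtain ⟨hTX, hT3, _⟩ := hT'
  set A := (triples X r).filter (fun T' => ∃ P ∈ T.powersetCard 2, P ⊆ T') with hA
  set B := (triples X r).filter (fun T' => ∃ a ∈ T, a ∈ T') with hB
  have hAcard : A.card ≤ 6 := by
    have h1 : A ⊆ (T.powersetCard 2).biUnion (fun P => (triples X r).filter (fun T' => P ⊆ T')) := by
      intro T' hT'
      rw [hA, mem_filter] at hT'
      obtain ⟨h2, P, hP, hPT⟩ := hT'
      rw [mem_biUnion]
      exact ⟨P, hP, mem_filter.mpr ⟨h2, hPT⟩⟩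
    have h2 : ∀ P ∈ T.powersetCard 2, ((triples X r).filter (fun T' => P ⊆ T')).card ≤ 2 := by
      intro P hP
      rw [mem_powersetCard] at hP
      obtain ⟨_, hP2⟩ := hP
      rw [card_eq_two] at hP2
      obtain ⟨a, b, hab, rfl⟩ := hP2
      have := card_triples_pair_le hX r hab
      refine le_trans (card_le_card ?_) this
      intro T' hT'
      rw [mem_filter] at hT' ⊢
      exact ⟨hT'.1, hT'.2 (by simp), hT'.2 (by simp)⟩
    calc A.card ≤ _ := card_le_card h1
      _ ≤ ∑ P ∈ T.powersetCard 2, ((triples X r).filter (fun T' => P ⊆ T')).card := card_biUnion_le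
      _ ≤ ∑ P ∈ T.powersetCard 2, 2 := sum_le_sum h2
      _ = 6 := by rw [sum_const, card_powersetCard, hT3]; rfl
  have hBcard : B.card ≤ 3 * X.card := by
    have h1 : B ⊆ T.biUnion (fun a => (triples X r).filter (fun T' => a ∈ T')) := by
      intro T' hT'
      rw [hB, mem_filter] at hT'
      obtain ⟨h2, a, ha, haT⟩ := hT'
      rw [mem_biUnion]
      exact ⟨a, ha, mem_filter.mpr ⟨h2, haT⟩⟩
    calc B.card ≤ _ := card_le_card h1
      _ ≤ ∑ a ∈ T, ((triples X r).filter (fun T' => a ∈ T')).card := card_biUnion_le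
      _ ≤ ∑ a ∈ T, X.card := sum_le_sum (fun a ha => card_triples_point_le hX r a (hTX ha))
      _ = 3 * X.card := by rw [sum_const, hT3, smul_eq_mul]
  have hCcard : ((triples X r).card : ℝ) ≤ (X.card : ℝ) ^ 2 / 3 := by
    have := card_triples_le hX r
    have h2 : (3 : ℝ) * (triples X r).card ≤ (X.card : ℝ) ^ 2 := by exact_mod_cast this
    linarith
  have hpt : ∀ T' ∈ (triples X r).erase T, t ^ (T ∪ T').card ≤
      (if (∃ P ∈ T.powersetCard 2, P ⊆ T') then t ^ 4 else 0) +
      (if (∃ a ∈ T, a ∈ T') then t ^ 5 else 0) + t ^ 6 := by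
    intro T' hT'
    rw [mem_erase, mem_triples] at hT'
    obtain ⟨hne, hTX', hT3', _⟩ := hT'
    have hui := card_union_add_card_inter T T'
    have hi3 : (T ∩ T').card ≤ 2 := by
      by_contra hcon
      push Not at hcon
      have h1 : T ∩ T' = T := eq_of_subset_of_card_le inter_subset_left (by omega)
      have h2 : T ∩ T' = T' := eq_of_subset_of_card_le inter_subset_right (by omega)
      exact hne (h2.symm.trans h1)
    have ht4 : 0 ≤ t ^ 4 := by positivity
    have ht5 : 0 ≤ t ^ 5 := by positivity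
    have ht6 : 0 ≤ t ^ 6 := by positivity
    have i1 : 0 ≤ (if (∃ P ∈ T.powersetCard 2, P ⊆ T') then t ^ 4 else 0) := by
      split_ifs <;> simp [ht4]
    have i2 : 0 ≤ (if (∃ a ∈ T, a ∈ T') then t ^ 5 else 0) := by
      split_ifs <;> simp [ht5]
    rcases Nat.lt_or_ge (T ∩ T').card 1 with h0 | h0
    · have : (T ∪ T').card = 6 := by omega
      rw [this]; linarith
    · rcases Nat.lt_or_ge (T ∩ T').card 2 with h1 | h1
      · have : (T ∪ T').card = 5 := by omega
        rw [this]
        have hex : ∃ a ∈ T, a ∈ T' := by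
          have : (T ∩ T').Nonempty := by rw [← card_pos]; omega
          obtain ⟨a, ha⟩ := this
          rw [mem_inter] at ha
          exact ⟨a, ha.1, ha.2⟩
        rw [if_pos hex]; linarith
      · have : (T ∪ T').card = 4 := by omega
        rw [this]
        have hex : ∃ P ∈ T.powersetCard 2, P ⊆ T' := by
          refine ⟨T ∩ T', ?_, inter_subset_right⟩
          rw [mem_powersetCard]
          exact ⟨inter_subset_left, by omega⟩
        rw [if_pos hex]; linarith
  have ht4 : 0 ≤ t ^ 4 := by positivity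
  have ht5 : 0 ≤ t ^ 5 := by positivity
  have ht6 : 0 ≤ t ^ 6 := by positivity
  calc ∑ T' ∈ (triples X r).erase T, t ^ (T ∪ T').card
      ≤ ∑ T' ∈ (triples X r).erase T,
        ((if (∃ P ∈ T.powersetCard 2, P ⊆ T') then t ^ 4 else 0) +
        (if (∃ a ∈ T, a ∈ T') then t ^ 5 else 0) + t ^ 6) := sum_le_sum hpt
    _ ≤ ∑ T' ∈ triples X r,
        ((if (∃ P ∈ T.powersetCard 2, P ⊆ T') then t ^ 4 else 0) +
        (if (∃ a ∈ T, a ∈ T') then t ^ 5 else 0) + t ^ 6) := by
        apply sum_le_sum_of_subset_of_nonneg (erase_subset _ _)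
        intro T' _ _
        have i1 : 0 ≤ (if (∃ P ∈ T.powersetCard 2, P ⊆ T') then t ^ 4 else 0) := by
          split_ifs <;> simp [ht4]
        have i2 : 0 ≤ (if (∃ a ∈ T, a ∈ T') then t ^ 5 else 0) := by
          split_ifs <;> simp [ht5]
        linarith
    _ = (A.card : ℝ) * t ^ 4 + (B.card : ℝ) * t ^ 5 + ((triples X r).card : ℝ) * t ^ 6 := by
        rw [sum_add_distrib, sum_add_distrib, ← sum_filter, ← sum_filter, sum_const, sum_const,
          sum_const, nsmul_eq_mul, nsmul_eq_mul, nsmul_eq_mul]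
    _ ≤ 6 * t ^ 4 + 3 * X.card * t ^ 5 + (X.card : ℝ) ^ 2 / 3 * t ^ 6 := by
        have a1 : (A.card : ℝ) ≤ 6 := by exact_mod_cast hAcard
        have a2 : (B.card : ℝ) ≤ 3 * X.card := by exact_mod_cast hBcard
        have b1 := mul_le_mul_of_nonneg_right a1 ht4
        have b2 := mul_le_mul_of_nonneg_right a2 ht5
        have b3 := mul_le_mul_of_nonneg_right hCcard ht6
        linarith

end Pool.Agent.Lib.MP_75c8a4_co
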