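import Mathlib

/-!
# A deletion lemma for finite families of edges
-/

open Finset

namespace Pool.Agent.Lib.MP_75c8a4_co

/-- `C(n-j, m-j) * n^j ≤ C(n, m) * m^j` for `j ≤ m ≤ n`. -/
lemma choose_sub_mul_pow_le (n m : ℕ) (hmn : m ≤ n) :
    ∀ j : ℕ, j ≤ m → (n - j).choose (m - j) * n ^ j ≤ n.choose m * m ^ j := by
  intro j
  induction j with
  | zero => intro _; simp
  | succ j ih =>
    intro hj
    have h1 := ih (by omega)
    -- `a * (n - j) = b * (m - j)`
    have h2 : (n - (j + 1)).choose (m - (j + 1)) * (n - j) = (n - j).choose (m - j) * (m - j) := by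
      have h3 := Nat.add_one_mul_choose_eq (n - (j + 1)) (m - (j + 1))
      have e1 : n - (j + 1) + 1 = n - j := by omega
      have e2 : m - (j + 1) + 1 = m - j := by omega
      rw [e1, e2] at h3
      rw [mul_comm]; exact h3
    have h4 : (m - j) * n ≤ m * (n - j) := by
      obtain ⟨a, rfl⟩ : ∃ a, m = j + a := ⟨m - j, by omega⟩
      obtain ⟨b, rfl⟩ : ∃ b, n = j + a + b := ⟨n - (j + a), by omega⟩
      have e1 : j + a - j = a := by omega
      have e2 : j + a + b - j = a + b := by omega
      rw [e1, e2]
      nlinarith [Nat.zero_le (j * b)]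
    have h5 : (n - (j + 1)).choose (m - (j + 1)) * n ≤ (n - j).choose (m - j) * m := by
      have hpos : 0 < n - j := by omega
      refine Nat.le_of_mul_le_mul_right ?_ hpos
      calc (n - (j + 1)).choose (m - (j + 1)) * n * (n - j)
          = ((n - (j + 1)).choose (m - (j + 1)) * (n - j)) * n := by ring
        _ = ((n - j).choose (m - j) * (m - j)) * n := by rw [h2]
        _ = (n - j).choose (m - j) * ((m - j) * n) := by ring
        _ ≤ (n - j).choose (m - j) * (m * (n - j)) := Nat.mul_le_mul_left _ h4
        _ = (n - j).choose (m - j) * m * (n - j) := by ring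
    calc (n - (j + 1)).choose (m - (j + 1)) * n ^ (j + 1)
        = ((n - (j + 1)).choose (m - (j + 1)) * n) * n ^ j := by ring
      _ ≤ ((n - j).choose (m - j) * m) * n ^ j := Nat.mul_le_mul_right _ h5
      _ = ((n - j).choose (m - j) * n ^ j) * m := by ring
      _ ≤ (n.choose m * m ^ j) * m := Nat.mul_le_mul_right _ h1
      _ = n.choose m * m ^ (j + 1) := by ring

/-- The number of `m`-subsets of `X` that contain a given set `E`. -/
lemma card_filter_superset_le {α : Type*} [DecidableEq α] (X E : Finset α) (m : ℕ)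
    (hE : E ⊆ X) (hm : m ≤ X.card) :
    ((X.powersetCard m).filter (fun S => E ⊆ S)).card * X.card ^ E.card ≤
      X.card.choose m * m ^ E.card := by
  by_cases hEm : E.card ≤ m
  · have h1 : ((X.powersetCard m).filter (fun S => E ⊆ S)).card ≤
        (X.card - E.card).choose (m - E.card) := by
      have h2 : ((X.powersetCard m).filter (fun S => E ⊆ S)).card ≤
          ((X \ E).powersetCard (m - E.card)).card := by
        apply Finset.card_le_card_of_injOn (fun S => S \ E)
        · intro S hS
          simp only [coe_filter, mem_powersetCard, Set.mem_ofPred_eq] at hS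
          obtain ⟨⟨hSX, hSm⟩, hES⟩ := hS
          rw [mem_coe, mem_powersetCard]
          refine ⟨sdiff_subset_sdiff hSX (Subset.refl _), ?_⟩
          rw [card_sdiff_of_subset hES, hSm]
        · intro S hS S' hS' h
          simp only [coe_filter, mem_powersetCard, Set.mem_ofPred_eq] at hS hS'
          simp only at h
          rw [← sdiff_union_of_subset hS.2, h, sdiff_union_of_subset hS'.2]
      rw [card_powersetCard, card_sdiff_of_subset hE] at h2
      exact h2
    calc ((X.powersetCard m).filter (fun S => E ⊆ S)).card * X.card ^ E.card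
        ≤ (X.card - E.card).choose (m - E.card) * X.card ^ E.card :=
          Nat.mul_le_mul_right _ h1
      _ ≤ X.card.choose m * m ^ E.card := choose_sub_mul_pow_le _ _ hm _ hEm
  · have h1 : (X.powersetCard m).filter (fun S => E ⊆ S) = ∅ := by
      rw [filter_eq_empty_iff]
      intro S hS hES
      rw [mem_powersetCard] at hS
      have := card_le_card hES
      omega
    rw [h1]; simp

/-- Deletion lemma: if the weighted number of edges is at most `m - k`, there is a `k`-subset
containing no edge. -/
lemma exists_independent {α κ : Type*} [DecidableEq α] [DecidableEq κ] (X : Finset α)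
    (I : Finset κ) (E : κ → Finset α) (hE : ∀ i ∈ I, E i ⊆ X) (hne : ∀ i ∈ I, (E i).Nonempty)
    (m k : ℕ) (hm : m ≤ X.card)
    (hsum : ∑ i ∈ I, ((m : ℝ) / X.card) ^ (E i).card ≤ (m : ℝ) - k) :
    ∃ Y ⊆ X, Y.card = k ∧ ∀ i ∈ I, ¬ E i ⊆ Y := by
  classical
  -- double counting
  have hcount : ∑ S ∈ X.powersetCard m, (I.filter (fun i => E i ⊆ S)).card =
      ∑ i ∈ I, ((X.powersetCard m).filter (fun S => E i ⊆ S)).card := by
    simp_rw [card_filter]
    rw [sum_comm]
  have hbound : ∑ S ∈ X.powersetCard m, ((I.filter (fun i => E i ⊆ S)).card : ℝ) ≤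
      (X.powersetCard m).card • ((m : ℝ) - k) := by
    have h1 : ∑ S ∈ X.powersetCard m, ((I.filter (fun i => E i ⊆ S)).card : ℝ) =
        ∑ i ∈ I, (((X.powersetCard m).filter (fun S => E i ⊆ S)).card : ℝ) := by
      exact_mod_cast hcount
    rw [h1]
    have h2 : ∀ i ∈ I, (((X.powersetCard m).filter (fun S => E i ⊆ S)).card : ℝ) ≤
        (X.card.choose m : ℝ) * ((m : ℝ) / X.card) ^ (E i).card := by
      intro i hi
      have h3 := card_filter_superset_le X (E i) m (hE i hi) hm
      have h4 : (((X.powersetCard m).filter (fun S => E i ⊆ S)).card : ℝ) *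
          (X.card : ℝ) ^ (E i).card ≤ (X.card.choose m : ℝ) * (m : ℝ) ^ (E i).card := by
        exact_mod_cast h3
      have hXpos : 0 < X.card := by
        have h5 := (hne i hi).card_pos
        have h6 := card_le_card (hE i hi)
        omega
      have hX' : (0 : ℝ) < (X.card : ℝ) ^ (E i).card := by positivity
      rw [div_pow, mul_div_assoc', le_div_iff₀ hX']
      exact h4
    calc ∑ i ∈ I, (((X.powersetCard m).filter (fun S => E i ⊆ S)).card : ℝ)
        ≤ ∑ i ∈ I, (X.card.choose m : ℝ) * ((m : ℝ) / X.card) ^ (E i).card := sum_le_sum h2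
      _ = (X.card.choose m : ℝ) * ∑ i ∈ I, ((m : ℝ) / X.card) ^ (E i).card := by
          rw [mul_sum]
      _ ≤ (X.card.choose m : ℝ) * ((m : ℝ) - k) := by
          apply mul_le_mul_of_nonneg_left hsum; positivity
      _ = (X.powersetCard m).card • ((m : ℝ) - k) := by
          rw [card_powersetCard, nsmul_eq_mul]
  have hnonempty : (X.powersetCard m).Nonempty := powersetCard_nonempty.mpr hm
  obtain ⟨S, hS, hSle⟩ : ∃ S ∈ X.powersetCard m,
      ((I.filter (fun i => E i ⊆ S)).card : ℝ) ≤ (m : ℝ) - k := by
    apply Finset.exists_le_of_sum_le hnonempty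
    rw [sum_const]
    exact hbound
  rw [mem_powersetCard] at hS
  -- remove one point of every edge
  set F := I.filter (fun i => E i ⊆ S) with hF
  have hFI : ∀ i : {i // i ∈ F}, (E i.1).Nonempty := fun i => hne _ (mem_filter.mp i.2).1
  let R : Finset α := F.attach.image (fun i => (hFI i).choose)
  have hR : R.card ≤ F.card := by
    calc R.card ≤ F.attach.card := card_image_le
      _ = F.card := card_attach
  have hFk : F.card + k ≤ m := by
    have : ((F.card + k : ℕ) : ℝ) ≤ (m : ℝ) := by push_cast; linarith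
    exact_mod_cast this
  have hSR : k ≤ (S \ R).card := by
    have := le_card_sdiff R S
    omega
  obtain ⟨Y, hY, hYk⟩ := exists_subset_card_eq hSR
  refine ⟨Y, (hY.trans sdiff_subset).trans hS.1, hYk, ?_⟩
  intro i hi hiY
  have hiF : i ∈ F := by
    rw [hF, mem_filter]
    exact ⟨hi, (hiY.trans hY).trans sdiff_subset⟩
  have h1 : (hFI ⟨i, hiF⟩).choose ∈ E i := (hFI ⟨i, hiF⟩).choose_spec
  have h2 : (hFI ⟨i, hiF⟩).choose ∈ R := by
    apply mem_image_of_mem _ (mem_attach F ⟨i, hiF⟩)
  have h3 := hY (hiY h1)
  rw [mem_sdiff] at h3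
  exact h3.2 h2

end Pool.Agent.Lib.MP_75c8a4_co
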