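import Mathlib

/-!
# Generic choices: finitely many nonzero polynomials have a common non-zero

and the two determinants that detect collinear triples and concyclic quadruples of projected points.
-/

open Finset

namespace Pool.Agent.Lib.MP_75c8a4_co

/-- Finitely many nonzero polynomials over `ℝ` have a common point where none vanishes. -/
lemma exists_eval_ne_zero {σ : Type*} (F : Finset (MvPolynomial σ ℝ)) (hF : ∀ f ∈ F, f ≠ 0) :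
    ∃ z : σ → ℝ, ∀ f ∈ F, MvPolynomial.eval z f ≠ 0 := by
  classical
  have hprod : ∏ f ∈ F, f ≠ 0 := Finset.prod_ne_zero_iff.mpr hF
  have : ∃ z : σ → ℝ, MvPolynomial.eval z (∏ f ∈ F, f) ≠ 0 := by
    by_contra hcon
    push Not at hcon
    apply hprod
    apply MvPolynomial.funext
    intro z
    rw [hcon z, map_zero]
  obtain ⟨z, hz⟩ := this
  refine ⟨z, fun f hf h0 => hz ?_⟩
  rw [map_prod]
  exact Finset.prod_eq_zero hf h0

variable {d : ℕ}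

/-- The linear form with coefficient vector `p` in the block `j` of variables. -/
noncomputable def lin (j : Fin 2) (p : Fin d → ℝ) : MvPolynomial (Fin 2 × Fin d) ℝ :=
  ∑ i, MvPolynomial.C (p i) * MvPolynomial.X (j, i)

lemma eval_lin (j : Fin 2) (p : Fin d → ℝ) (z : Fin 2 × Fin d → ℝ) :
    MvPolynomial.eval z (lin j p) = (fun i => z (j, i)) ⬝ᵥ p := by
  simp only [lin, map_sum, map_mul, MvPolynomial.eval_C, MvPolynomial.eval_X, dotProduct]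
  apply Finset.sum_congr rfl
  intro i _
  ring

/-- `q` is not a multiple of the nonzero vector `p`. -/
def NotParallel (p q : Fin d → ℝ) : Prop := p ≠ 0 ∧ ∀ c : ℝ, q ≠ c • p

lemma NotParallel.minor {p q : Fin d → ℝ} (h : NotParallel p q) :
    ∃ i j, p i * q j - p j * q i ≠ 0 := by
  obtain ⟨hp, hq⟩ := h
  obtain ⟨i, hi⟩ : ∃ i, p i ≠ 0 := by
    by_contra hcon
    push Not at hcon
    exact hp (funext hcon)
  have h1 := hq (q i / p i)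
  obtain ⟨j, hj⟩ : ∃ j, q j ≠ ((q i / p i) • p) j := by
    by_contra hcon
    push Not at hcon
    exact h1 (funext hcon)
  refine ⟨i, j, ?_⟩
  intro h2
  apply hj
  simp only [Pi.smul_apply, smul_eq_mul]
  field_simp
  linarith

/-- The cross product of the two projected vectors. -/
noncomputable def colPoly (p q : Fin d → ℝ) : MvPolynomial (Fin 2 × Fin d) ℝ :=
  lin 0 p * lin 1 q - lin 1 p * lin 0 q

lemma colPoly_ne_zero {p q : Fin d → ℝ} (h : NotParallel p q) : colPoly p q ≠ 0 := by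
  classical
  obtain ⟨i, j, hij⟩ := h.minor
  intro h0
  let z : Fin 2 × Fin d → ℝ := fun a => if a.1 = 0 then (if a.2 = i then 1 else 0)
    else (if a.2 = j then 1 else 0)
  have h1 : MvPolynomial.eval z (colPoly p q) = 0 := by rw [h0, map_zero]
  apply hij
  simp only [colPoly, map_sub, map_mul, eval_lin] at h1
  simp only [z, dotProduct, if_true, one_ne_zero, if_false, ite_mul, one_mul, zero_mul,
    Finset.sum_ite_eq', Finset.mem_univ] at h1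
  exact h1

/-- The part of the concyclicity determinant that is quadratic in the first block. -/
def detSq (s₁ s₂ s₃ t₁ t₂ t₃ : ℝ) : ℝ :=
  s₁ * (t₂ * s₃ ^ 2 - t₃ * s₂ ^ 2) - t₁ * (s₂ * s₃ ^ 2 - s₃ * s₂ ^ 2) +
    s₁ ^ 2 * (s₂ * t₃ - s₃ * t₂)

/-- The concyclicity determinant. -/
def detCirc (s₁ s₂ s₃ t₁ t₂ t₃ : ℝ) : ℝ :=
  s₁ * (t₂ * (s₃ ^ 2 + t₃ ^ 2) - t₃ * (s₂ ^ 2 + t₂ ^ 2)) -
    t₁ * (s₂ * (s₃ ^ 2 + t₃ ^ 2) - s₃ * (s₂ ^ 2 + t₂ ^ 2)) +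
    (s₁ ^ 2 + t₁ ^ 2) * (s₂ * t₃ - s₃ * t₂)

/-- Finitely many nonzero vectors have a common vector with nonzero dot products. -/
lemma exists_dot_ne_zero (a b c : Fin d → ℝ) (ha : a ≠ 0) (hb : b ≠ 0) (hc : c ≠ 0) :
    ∃ x : Fin d → ℝ, x ⬝ᵥ a ≠ 0 ∧ x ⬝ᵥ b ≠ 0 ∧ x ⬝ᵥ c ≠ 0 := by
  classical
  have hne : ∀ w : Fin d → ℝ, w ≠ 0 → lin 0 w ≠ 0 := by
    intro w hw h0
    have h1 : MvPolynomial.eval (fun a : Fin 2 × Fin d => w a.2) (lin 0 w) = 0 := by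
      rw [h0, map_zero]
    rw [eval_lin] at h1
    exact hw (dotProduct_self_eq_zero.mp h1)
  obtain ⟨z, hz⟩ := exists_eval_ne_zero (σ := Fin 2 × Fin d) {lin 0 a, lin 0 b, lin 0 c} (by
    intro f hf
    simp only [mem_insert, mem_singleton] at hf
    rcases hf with rfl | rfl | rfl
    · exact hne a ha
    · exact hne b hb
    · exact hne c hc)
  refine ⟨fun i => z (0, i), ?_, ?_, ?_⟩
  · rw [← eval_lin]; exact hz _ (by simp)
  · rw [← eval_lin]; exact hz _ (by simp)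
  · rw [← eval_lin]; exact hz _ (by simp)

/-- If `p₁` is parallel to none of `p₂`, `p₃`, `p₂ - p₃` then `detSq` can be made nonzero. -/
lemma exists_detSq_ne_zero_aux {p₁ p₂ p₃ : Fin d → ℝ} (h12 : NotParallel p₁ p₂)
    (h13 : NotParallel p₁ p₃) (h23 : NotParallel p₁ (p₂ - p₃)) :
    ∃ u v : Fin d → ℝ, detSq (u ⬝ᵥ p₁) (u ⬝ᵥ p₂) (u ⬝ᵥ p₃) (v ⬝ᵥ p₁) (v ⬝ᵥ p₂) (v ⬝ᵥ p₃) ≠ 0 := by
  classical
  set N : ℝ := p₁ ⬝ᵥ p₁ with hN
  have hN0 : N ≠ 0 := by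
    intro h
    exact h12.1 (dotProduct_self_eq_zero.mp h)
  have key : ∀ w : Fin d → ℝ, NotParallel p₁ w → N • w - (p₁ ⬝ᵥ w) • p₁ ≠ 0 := by
    intro w hw h0
    apply hw.2 ((p₁ ⬝ᵥ w) / N)
    have h1 : N • w = (p₁ ⬝ᵥ w) • p₁ := sub_eq_zero.mp h0
    calc w = N⁻¹ • (N • w) := by rw [smul_smul, inv_mul_cancel₀ hN0, one_smul]
      _ = N⁻¹ • ((p₁ ⬝ᵥ w) • p₁) := by rw [h1]
      _ = ((p₁ ⬝ᵥ w) / N) • p₁ := by rw [smul_smul]; congr 1; ring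
  obtain ⟨x, hx2, hx3, hx23⟩ := exists_dot_ne_zero _ _ _ (key _ h12) (key _ h13) (key _ h23)
  let u : Fin d → ℝ := N • x - (x ⬝ᵥ p₁) • p₁
  have hu : ∀ w : Fin d → ℝ, u ⬝ᵥ w = x ⬝ᵥ (N • w - (p₁ ⬝ᵥ w) • p₁) := by
    intro w
    simp only [u, sub_dotProduct, smul_dotProduct, dotProduct_sub, dotProduct_smul, smul_eq_mul]
    ring
  have hu1 : u ⬝ᵥ p₁ = 0 := by
    simp only [u, sub_dotProduct, smul_dotProduct, smul_eq_mul]
    rw [← hN]; ring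
  refine ⟨u, p₁, ?_⟩
  rw [hu1]
  have e : detSq 0 (u ⬝ᵥ p₂) (u ⬝ᵥ p₃) (p₁ ⬝ᵥ p₁) (p₁ ⬝ᵥ p₂) (p₁ ⬝ᵥ p₃) =
      N * ((u ⬝ᵥ p₂) * (u ⬝ᵥ p₃) * (u ⬝ᵥ (p₂ - p₃))) := by
    simp only [detSq, dotProduct_sub, ← hN]
    ring
  rw [e]
  refine mul_ne_zero hN0 (mul_ne_zero (mul_ne_zero ?_ ?_) ?_)
  · rw [hu]; exact hx2
  · rw [hu]; exact hx3
  · rw [hu]; exact hx23

/-- Three pairwise non-parallel vectors: `detSq` can be made nonzero. -/
lemma exists_detSq_ne_zero {p₁ p₂ p₃ : Fin d → ℝ} (h12 : NotParallel p₁ p₂)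
    (h13 : NotParallel p₁ p₃) (h21 : NotParallel p₂ p₁) (h23 : NotParallel p₂ p₃)
    (h31 : NotParallel p₃ p₁) (h32 : NotParallel p₃ p₂) :
    ∃ u v : Fin d → ℝ, detSq (u ⬝ᵥ p₁) (u ⬝ᵥ p₂) (u ⬝ᵥ p₃) (v ⬝ᵥ p₁) (v ⬝ᵥ p₂) (v ⬝ᵥ p₃) ≠ 0 := by
  classical
  by_cases c1 : NotParallel p₁ (p₂ - p₃)
  · exact exists_detSq_ne_zero_aux h12 h13 c1
  by_cases c2 : NotParallel p₂ (p₃ - p₁)
  · obtain ⟨u, v, h⟩ := exists_detSq_ne_zero_aux h23 h21 c2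
    refine ⟨u, v, ?_⟩
    intro h0; apply h; rw [← h0]; simp only [detSq]; ring
  by_cases c3 : NotParallel p₃ (p₁ - p₂)
  · obtain ⟨u, v, h⟩ := exists_detSq_ne_zero_aux h31 h32 c3
    refine ⟨u, v, ?_⟩
    intro h0; apply h; rw [← h0]; simp only [detSq]; ring
  exfalso
  unfold NotParallel at c1 c2 c3
  push Not at c1 c2 c3
  obtain ⟨a, ha⟩ := c1 h12.1
  obtain ⟨b, hb⟩ := c2 h21.1
  obtain ⟨c, hc⟩ := c3 h31.1
  -- p₂ - p₃ = a p₁, p₃ - p₁ = b p₂, p₁ - p₂ = c p₃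
  have e1 : (1 - b) • p₂ = (1 + a) • p₁ := by
    have : p₂ - p₁ = a • p₁ + b • p₂ := by rw [← ha, ← hb]; abel
    have h2 : p₂ = p₁ + (a • p₁ + b • p₂) := by rw [← this]; abel
    ext i
    have h3 := congrFun h2 i
    simp only [Pi.add_apply, Pi.smul_apply, smul_eq_mul] at h3 ⊢
    linarith
  have hb1 : b = 1 := by
    by_contra hb1
    have h1b : (1 - b) ≠ 0 := sub_ne_zero.mpr (Ne.symm hb1)
    apply h12.2 ((1 - b)⁻¹ * (1 + a))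
    rw [mul_smul, ← e1, smul_smul, inv_mul_cancel₀ h1b, one_smul]
  subst hb1
  have hc1 : (1 - c) • p₁ = (1 + c) • p₂ := by
    have h3 : p₃ = p₁ + p₂ := by
      have := hb; rw [one_smul] at this; rw [← this]; abel
    rw [h3] at hc
    ext i
    have h4 := congrFun hc i
    simp only [Pi.sub_apply, Pi.add_apply, Pi.smul_apply, smul_eq_mul] at h4 ⊢
    linarith
  by_cases hcc : c = 1
  · subst hcc
    have h5 : (1 + 1 : ℝ) • p₂ = 0 := by rw [← hc1]; simp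
    rw [smul_eq_zero] at h5
    rcases h5 with h5 | h5
    · norm_num at h5
    · exact h21.1 h5
  · have h1c : (1 - c) ≠ 0 := sub_ne_zero.mpr (Ne.symm hcc)
    apply h21.2 ((1 - c)⁻¹ * (1 + c))
    rw [mul_smul, ← hc1, smul_smul, inv_mul_cancel₀ h1c, one_smul]

/-- The concyclicity polynomial. -/
noncomputable def circPoly (p₁ p₂ p₃ : Fin d → ℝ) : MvPolynomial (Fin 2 × Fin d) ℝ :=
  lin 0 p₁ * (lin 1 p₂ * (lin 0 p₃ ^ 2 + lin 1 p₃ ^ 2) - lin 1 p₃ * (lin 0 p₂ ^ 2 + lin 1 p₂ ^ 2)) -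
    lin 1 p₁ * (lin 0 p₂ * (lin 0 p₃ ^ 2 + lin 1 p₃ ^ 2) - lin 0 p₃ * (lin 0 p₂ ^ 2 + lin 1 p₂ ^ 2)) +
    (lin 0 p₁ ^ 2 + lin 1 p₁ ^ 2) * (lin 0 p₂ * lin 1 p₃ - lin 0 p₃ * lin 1 p₂)

lemma eval_circPoly (p₁ p₂ p₃ : Fin d → ℝ) (z : Fin 2 × Fin d → ℝ) :
    MvPolynomial.eval z (circPoly p₁ p₂ p₃) =
      detCirc ((fun i => z (0, i)) ⬝ᵥ p₁) ((fun i => z (0, i)) ⬝ᵥ p₂) ((fun i => z (0, i)) ⬝ᵥ p₃)
        ((fun i => z (1, i)) ⬝ᵥ p₁) ((fun i => z (1, i)) ⬝ᵥ p₂) ((fun i => z (1, i)) ⬝ᵥ p₃) := by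
  simp only [circPoly, map_add, map_sub, map_mul, map_pow, eval_lin, detCirc]

lemma circPoly_ne_zero {p₁ p₂ p₃ : Fin d → ℝ} (h12 : NotParallel p₁ p₂)
    (h13 : NotParallel p₁ p₃) (h21 : NotParallel p₂ p₁) (h23 : NotParallel p₂ p₃)
    (h31 : NotParallel p₃ p₁) (h32 : NotParallel p₃ p₂) : circPoly p₁ p₂ p₃ ≠ 0 := by
  intro h0
  obtain ⟨u, v, huv⟩ := exists_detSq_ne_zero h12 h13 h21 h23 h31 h32
  have hz : ∀ τ : ℝ, detCirc (u ⬝ᵥ p₁) (u ⬝ᵥ p₂) (u ⬝ᵥ p₃)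
      (τ * (v ⬝ᵥ p₁)) (τ * (v ⬝ᵥ p₂)) (τ * (v ⬝ᵥ p₃)) = 0 := by
    intro τ
    let z : Fin 2 × Fin d → ℝ := fun a => if a.1 = 0 then u a.2 else τ * v a.2
    have h1 : MvPolynomial.eval z (circPoly p₁ p₂ p₃) = 0 := by rw [h0, map_zero]
    rw [eval_circPoly] at h1
    have e0 : (fun i => z (0, i)) = u := by funext i; simp [z]
    have e1 : (fun i => z (1, i)) = τ • v := by funext i; simp [z]
    rw [e0, e1] at h1
    simp only [smul_dotProduct, smul_eq_mul] at h1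
    exact h1
  have h1 := hz 1
  have h2 := hz 2
  apply huv
  simp only [detCirc, detSq] at h1 h2 ⊢
  linear_combination (4 / 3 : ℝ) * h1 - (1 / 6 : ℝ) * h2

end Pool.Agent.Lib.MP_75c8a4_co
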